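import Pool.Agent.H39.HX.SPar0
import Pool.Agent.H65.HX.SStm

set_option autoImplicit false
open Classical Finset

namespace Pool.Agent.H39.HX

open Pool.Agent.H39.HW (sm Av ln blk lab)
open Pool.Agent.H65.HX Pool.Agent.H65.HX.Sc

theorem t_PAR : S_PAR := by
  obtain ⟨K, hK⟩ : ∃ K : ℕ, K = 5 * 10 ^ 109 + 6 * 10 ^ 78 := ⟨_, rfl⟩
  obtain ⟨Kh, hKh⟩ : ∃ Kh : ℕ, Kh = 25 * 10 ^ 108 := ⟨_, rfl⟩
  obtain ⟨J, hJ⟩ : ∃ J : ℕ, J = 102 * 10 ^ 77 := ⟨_, rfl⟩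
  obtain ⟨M, hM⟩ : ∃ M : ℕ, M + 204 * 10 ^ 77 = 10 ^ 110 + 1 :=
    ⟨10 ^ 110 + 1 - 204 * 10 ^ 77, by norm_num⟩
  obtain ⟨n0, hn0⟩ : ∃ n0 : ℕ, n0 = 10 ^ 87 := ⟨_, rfl⟩
  obtain ⟨h, hh⟩ : ∃ h : ℕ, h = 1000 := ⟨_, rfl⟩
  obtain ⟨L, hL⟩ : ∃ L : ℕ, L = 8004000 := ⟨_, rfl⟩
  obtain ⟨q, hq⟩ : ∃ q : ℕ, q = 8 * 10 ^ 66 := ⟨_, rfl⟩
  obtain ⟨t, ht⟩ : ∃ t : ℕ, t = 10 ^ 185 := ⟨_, rfl⟩
  obtain ⟨B, hB⟩ : ∃ B : ℕ, B = 2 * K + 2 * J + M := ⟨_, rfl⟩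
  -- real forms
  have rK : (K : ℝ) = 5 * 10 ^ 109 + 6 * 10 ^ 78 := by rw [hK]; push_cast; ring
  have rKh : (Kh : ℝ) = 25 * 10 ^ 108 := by rw [hKh]; push_cast; ring
  have rJ : (J : ℝ) = 102 * 10 ^ 77 := by rw [hJ]; push_cast; ring
  have rM : (M : ℝ) = 10 ^ 110 - 204 * 10 ^ 77 + 1 := by
    have : (M : ℝ) + 204 * 10 ^ 77 = 10 ^ 110 + 1 := by exact_mod_cast hM
    linarith
  have rn0 : (n0 : ℝ) = 10 ^ 87 := by rw [hn0]; push_cast; ring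
  have rh : (h : ℝ) = 1000 := by rw [hh]; norm_num
  have rL : (L : ℝ) = 8004000 := by rw [hL]; norm_num
  have rq : (q : ℝ) = 8 * 10 ^ 66 := by rw [hq]; push_cast; ring
  have rt : (t : ℝ) = 10 ^ 185 := by rw [ht]; push_cast; ring
  have rB : (B : ℝ) = 2 * (5 * 10 ^ 109 + 6 * 10 ^ 78) + 2 * (102 * 10 ^ 77) +
      (10 ^ 110 - 204 * 10 ^ 77 + 1) := by
    rw [hB]; push_cast; rw [rK, rJ, rM]
  obtain ⟨m, hm⟩ : ∃ m : ℝ, m = (1 - 1 / 10 ^ 31) / 10 ^ 110 := ⟨_, rfl⟩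
  have hm0 : 0 < m := by rw [hm]; norm_num
  obtain ⟨δ, hδ⟩ : ∃ δ : ℝ, δ = 1 / 10 ^ 31 / (10 ^ 9 * L * (2 * h * t + 2) ^ 2 * (B + 2) *
    (2 * h + 2)) := ⟨_, rfl⟩
  have hL0 : (0 : ℝ) < L := by rw [rL]; norm_num
  have hh0 : (0 : ℝ) ≤ h := Nat.cast_nonneg _
  have ht0 : (0 : ℝ) ≤ t := Nat.cast_nonneg _
  have hB0 : (0 : ℝ) ≤ B := Nat.cast_nonneg _
  have hδ0 : 0 < δ := by rw [hδ]; positivity
  have hδ1 : 10 ^ 9 * (L : ℝ) * (2 * h * t + 2) ^ 2 * (B + 2) * (2 * h + 2) * δ = 1 / 10 ^ 31 := by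
    rw [hδ]; field_simp
  have hδ2 : (2 * (h : ℝ) * t + 2) * δ ≤ 1 / 10 ^ 31 / 10 ^ 9 := by
    rw [le_div_iff₀ (by positivity), ← hδ1]
    have h3 : (1 : ℝ) ≤ L * (2 * h * t + 2) * (B + 2) * (2 * h + 2) := by
      have h4 : (1 : ℝ) ≤ 2 * h * t + 2 := by
        have : 0 ≤ 2 * (h : ℝ) * t := by positivity
        linarith
      have h5 : (1 : ℝ) ≤ (B : ℝ) + 2 := by linarith
      have h6 : (1 : ℝ) ≤ 2 * (h : ℝ) + 2 := by linarith
      have h7 : (1 : ℝ) ≤ L * (2 * h * t + 2) := by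
        apply one_le_mul_of_one_le_of_one_le _ h4
        rw [rL]; norm_num
      exact one_le_mul_of_one_le_of_one_le (one_le_mul_of_one_le_of_one_le h7 h5) h6
    have h8 : (2 * (h : ℝ) * t + 2) * δ * 10 ^ 9 * 1 ≤
        (2 * (h : ℝ) * t + 2) * δ * 10 ^ 9 * (L * (2 * h * t + 2) * (B + 2) * (2 * h + 2)) :=
      mul_le_mul_of_nonneg_left h3 (by positivity)
    calc (2 * (h : ℝ) * t + 2) * δ * 10 ^ 9 = (2 * (h : ℝ) * t + 2) * δ * 10 ^ 9 * 1 := by ring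
      _ ≤ _ := h8
      _ = _ := by ring
  refine ⟨1 / 10 ^ 70, B, 2 * h * t, δ, by norm_num, hδ0, 10 ^ 150 * 10 ^ 150, ?_⟩
  intro D hD p hp
  have hDr : (10 : ℝ) ^ 150 * 10 ^ 150 ≤ D := by exact_mod_cast hD
  have hD0 : (0 : ℝ) < D := lt_of_lt_of_le (by positivity) hDr
  have hDa : (10 : ℝ) ^ 115 ≤ D := le_trans (by norm_num) hDr
  have hDb : 10 ^ 9 * (2 * (5 * 10 ^ 109 + 6 * 10 ^ 78) + 2 * (102 * 10 ^ 77) +
      (10 ^ 110 - 204 * 10 ^ 77 + 1) + 1) ≤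
      1 / 10 ^ 30 * (1 / 10 ^ 31) * ((1 - 1 / 10 ^ 31) / 10 ^ 110) * (D : ℝ) := by
    refine le_trans ?_ (mul_le_mul_of_nonneg_left hDr (by norm_num))
    norm_num
  have hDc : (2 : ℝ) ≤ 1 / 10 ^ 34 * D := by
    refine le_trans ?_ (mul_le_mul_of_nonneg_left hDr (by norm_num))
    norm_num
  have hD1 : 1 ≤ D := by
    have : 0 < D := by exact_mod_cast hD0
    omega
  obtain ⟨d, hd⟩ : ∃ d : ℝ, d = 1 / D := ⟨_, rfl⟩
  have hdD : d * D = 1 := by rw [hd]; field_simp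
  have hd0 : 0 < d := by rw [hd]; positivity
  have hd1 : d ≤ 1 / (10 ^ 150 * 10 ^ 150) := by
    rw [hd]
    exact one_div_le_one_div_of_le (by positivity) hDr
  have hd2 : d ≤ 1 / 10 ^ 200 := by
    refine hd1.trans ?_
    norm_num
  obtain ⟨P, hP⟩ : ∃ P : ℝ, P = (p : ℝ) / D := ⟨_, rfl⟩
  have hPD : (p : ℝ) = P * D := by rw [hP]; field_simp
  have hP1 : |P - 1 / 2| ≤ 1 / 10 ^ 70 := by
    have h1 : P - 1 / 2 = (p - D / 2) / D := by rw [hP]; field_simp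
    rw [h1, abs_div, abs_of_pos hD0, div_le_iff₀ hD0]
    exact hp
  -- w1, w2
  obtain ⟨w1, hw1⟩ : ∃ w1 : ℕ, w1 = ⌊m * (1 + 1 / 10 ^ 31 / 4) * D⌋₊ := ⟨_, rfl⟩
  obtain ⟨w2, hw2⟩ : ∃ w2 : ℕ, w2 = ⌊m * (1 + 3 / 20 * (1 / 10 ^ 31)) * D⌋₊ := ⟨_, rfl⟩
  obtain ⟨W1, hW1⟩ : ∃ W1 : ℝ, W1 = (w1 : ℝ) / D := ⟨_, rfl⟩
  obtain ⟨W2, hW2⟩ : ∃ W2 : ℝ, W2 = (w2 : ℝ) / D := ⟨_, rfl⟩
  have hw1D : (w1 : ℝ) = W1 * D := by rw [hW1]; field_simp
  have hw2D : (w2 : ℝ) = W2 * D := by rw [hW2]; field_simp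
  have a1 : W1 ≤ m * (1 + 1 / 10 ^ 31 / 4) := by
    have : (w1 : ℝ) ≤ m * (1 + 1 / 10 ^ 31 / 4) * D := by
      rw [hw1]; exact Nat.floor_le (by positivity)
    rw [hw1D] at this
    exact le_of_mul_le_mul_right this hD0
  have a2 : m * (1 + 1 / 10 ^ 31 / 4) - d ≤ W1 := by
    have : m * (1 + 1 / 10 ^ 31 / 4) * D < w1 + 1 := by
      rw [hw1]; exact Nat.lt_floor_add_one _
    rw [hw1D] at this
    have h2 : (m * (1 + 1 / 10 ^ 31 / 4) - d) * D ≤ W1 * D := by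
      have e : (m * (1 + 1 / 10 ^ 31 / 4) - d) * D = m * (1 + 1 / 10 ^ 31 / 4) * D - d * D := by ring
      rw [e, hdD]
      linarith
    exact le_of_mul_le_mul_right h2 hD0
  have a3 : W2 ≤ m * (1 + 3 / 20 * (1 / 10 ^ 31)) := by
    have : (w2 : ℝ) ≤ m * (1 + 3 / 20 * (1 / 10 ^ 31)) * D := by
      rw [hw2]; exact Nat.floor_le (by positivity)
    rw [hw2D] at this
    exact le_of_mul_le_mul_right this hD0
  have a4 : m * (1 + 3 / 20 * (1 / 10 ^ 31)) - d ≤ W2 := by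
    have : m * (1 + 3 / 20 * (1 / 10 ^ 31)) * D < w2 + 1 := by
      rw [hw2]; exact Nat.lt_floor_add_one _
    rw [hw2D] at this
    have h2 : (m * (1 + 3 / 20 * (1 / 10 ^ 31)) - d) * D ≤ W2 * D := by
      have e : (m * (1 + 3 / 20 * (1 / 10 ^ 31)) - d) * D =
        m * (1 + 3 / 20 * (1 / 10 ^ 31)) * D - d * D := by ring
      rw [e, hdD]
      linarith
    exact le_of_mul_le_mul_right h2 hD0
  -- Z0
  have hKKh : Kh ≤ K + J := by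
    rw [hK, hKh, hJ]; norm_num
  obtain ⟨Z, hZ⟩ : ∃ Z : ℕ, Z = Kh * w1 + (K + J - Kh) * w2 := ⟨_, rfl⟩
  obtain ⟨z, hz⟩ : ∃ z : ℝ, z = 25 * 10 ^ 108 * W1 +
      (5 * 10 ^ 109 + 6 * 10 ^ 78 + 102 * 10 ^ 77 - 25 * 10 ^ 108) * W2 := ⟨_, rfl⟩
  have rZ : (Z : ℝ) = z * D := by
    rw [hZ]
    push_cast [Nat.cast_sub hKKh]
    rw [rK, rKh, rJ, hw1D, hw2D, hz]
    ring
  have hz1 : 2 * z ≤ 3 / 2 := by
    rw [hz]
    have hP3 := abs_le.mp hP1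
    rw [hm] at a1 a3
    norm_num at a1 a3 ⊢
    linarith
  have hP3 := abs_le.mp hP1
  have hYle : 2 * Z ≤ D + 2 * p := by
    have : (2 * Z : ℝ) ≤ D + 2 * p := by
      rw [rZ, hPD]
      have e : (D : ℝ) + 2 * (P * D) = (1 + 2 * P) * D := by ring
      have e2 : 2 * (z * D) = (2 * z) * D := by ring
      rw [e, e2]
      apply mul_le_mul_of_nonneg_right _ hD0.le
      norm_num at hP3
      linarith [hP3.1]
    exact_mod_cast this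
  obtain ⟨Y, hY⟩ : ∃ Y : ℕ, Y = D + 2 * p - 2 * Z := ⟨_, rfl⟩
  have hYs : 2 * Z + Y = D + 2 * p := by omega
  have rY : (Y : ℝ) = (1 + 2 * P - 2 * z) * D := by
    have : (2 * Z : ℝ) + Y = D + 2 * p := by exact_mod_cast hYs
    rw [rZ, hPD] at this
    linarith
  have hM1 : 1 ≤ M := by
    have : (0 : ℝ) < M := by rw [rM]; norm_num
    have : 0 < M := by exact_mod_cast this
    omega
  obtain ⟨v, hv⟩ : ∃ v : ℕ, v = Y / M := ⟨_, rfl⟩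
  have hv1 : M * v ≤ Y := by
    rw [hv, mul_comm]
    exact Nat.div_mul_le_self Y M
  have hv2 : Y < M * v + M := by
    rw [hv]
    have := Nat.lt_mul_div_succ Y (by omega : 0 < M)
    have h3 : M * (Y / M + 1) = M * (Y / M) + M := by ring
    rw [h3] at this
    exact this
  obtain ⟨V, hV⟩ : ∃ V : ℝ, V = (v : ℝ) / D := ⟨_, rfl⟩
  have hvD : (v : ℝ) = V * D := by rw [hV]; field_simp
  have b1 : (10 ^ 110 - 204 * 10 ^ 77 + 1) * V ≤ 1 + 2 * P - 2 * z := by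
    have h1 : (M : ℝ) * v ≤ Y := by exact_mod_cast hv1
    rw [hvD, rY, rM] at h1
    have h2 : ((10 ^ 110 - 204 * 10 ^ 77 + 1) * V) * D ≤ (1 + 2 * P - 2 * z) * D := by linarith
    exact le_of_mul_le_mul_right h2 hD0
  have b2 : 1 + 2 * P - 2 * z ≤
      (10 ^ 110 - 204 * 10 ^ 77 + 1) * V + (10 ^ 110 - 204 * 10 ^ 77 + 1) * d := by
    have h1 : (Y : ℝ) < M * v + M := by exact_mod_cast hv2
    rw [hvD, rY] at h1
    have h3 : (M : ℝ) = (M * d) * D := by rw [mul_assoc, hdD, mul_one]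
    have h2 : (1 + 2 * P - 2 * z) * D ≤ (M * V + M * d) * D := by linarith
    have h4 := le_of_mul_le_mul_right h2 hD0
    rw [rM] at h4
    exact h4
  -- v is positive
  have hv0 : 1 ≤ v := by
    have : 0 < v := by
      by_contra hcon
      have hv00 : v = 0 := by omega
      rw [hv00, mul_zero, zero_add] at hv2
      have h1 : (Y : ℝ) < M := by exact_mod_cast hv2
      rw [rY, rM] at h1
      have h2 : (1 / 4 : ℝ) * D ≤ (1 + 2 * P - 2 * z) * D := by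
        apply mul_le_mul_of_nonneg_right _ hD0.le
        norm_num at hP3
        linarith [hP3.1]
      have h3 : (10 : ℝ) ^ 110 - 204 * 10 ^ 77 + 1 ≤ 1 / 4 * 10 ^ 115 := by norm_num
      linarith
    omega
  have hp2 : 2 ≤ p := by
    have : (2 : ℝ) ≤ p := by
      rw [hPD]
      have h1 : (1 / 4 : ℝ) * D ≤ P * D := by
        apply mul_le_mul_of_nonneg_right _ hD0.le
        norm_num at hP3
        linarith [hP3.1]
      have h3 : (8 : ℝ) ≤ 10 ^ 115 := by norm_num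
      linarith
    exact_mod_cast this
  obtain ⟨g, hg⟩ : ∃ g : ℕ, g = (p - 1 + v - 1) / v := ⟨_, rfl⟩
  obtain ⟨g0, g2, g3, g4⟩ := P0.nat_g p v hv0 hp2
  rw [← hg] at g0 g2 g3 g4
  have gR2 : (p : ℝ) ≤ g * v + 1 := by exact_mod_cast g2
  have gR4 : (g : ℝ) * v + 2 ≤ p + v := by exact_mod_cast g4
  have c1 : P - d ≤ g * V := by
    rw [hPD, hvD] at gR2
    have h2 : (P - d) * D ≤ (g * V) * D := by linarith
    exact le_of_mul_le_mul_right h2 hD0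
  have c2 : g * V ≤ P - d + V := by
    rw [hPD, hvD] at gR4
    have h2 : (g * V) * D ≤ (P - d + V) * D := by linarith
    exact le_of_mul_le_mul_right h2 hD0
  obtain ⟨e, he⟩ : ∃ e : ℕ, e = (J * (v - w2) + v - 1) / v := ⟨_, rfl⟩
  obtain ⟨e1, e2⟩ := P0.ceil_div (J * (v - w2)) v hv0
  rw [← he] at e1 e2
  -- w2 ≤ v first
  obtain ⟨l1, l2, l3, l4, l5, -, l7, l8, l9, l10, l11, l12, l13, l14, l15⟩ :=
    P0.lin P d W1 W2 V (g * V) 0 m hm hP1 hd0 hd2 a2 a1 a4 a3 (by rw [← hz]; exact b1)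
      (by rw [← hz]; exact b2) c1 c2 (by
        -- 0 ≤ J (V - W2) + V, from the lower bound for V
        have b2' := b2
        rw [hz] at b2'
        rw [hm] at a1 a3
        norm_num at b2' a1 a3 hd2 ⊢
        norm_num at hP3
        linarith [hP3.1])
  have hw12 : w2 < w1 := by
    have : (w2 : ℝ) < w1 := by
      rw [hw1D, hw2D]
      apply mul_lt_mul_of_pos_right _ hD0
      linarith
    exact_mod_cast this
  have hw1v : w1 < v := by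
    have : (w1 : ℝ) < v := by
      rw [hw1D, hvD]
      apply mul_lt_mul_of_pos_right _ hD0
      linarith
    exact_mod_cast this
  have hw20 : 1 ≤ w2 := by
    have : (1 : ℝ) ≤ w2 := by
      rw [hw2D, ← hdD]
      apply mul_le_mul_of_nonneg_right _ hD0.le
      linarith
    exact_mod_cast this
  have c3 : (e : ℝ) * V ≤ 102 * 10 ^ 77 * (V - W2) + V := by
    have h1 : ((v * e + 1 : ℕ) : ℝ) ≤ ((J * (v - w2) + v : ℕ) : ℝ) := by exact_mod_cast e2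
    push_cast [Nat.cast_sub (le_of_lt (hw12.trans hw1v))] at h1
    rw [rJ, hvD, hw2D] at h1
    have h2 : (e * V) * D ≤ (102 * 10 ^ 77 * (V - W2) + V) * D := by linarith
    exact le_of_mul_le_mul_right h2 hD0
  obtain ⟨-, -, -, -, -, l6, -, -, -, -, -, -, -, -, -⟩ :=
    P0.lin P d W1 W2 V (g * V) (e * V) m hm hP1 hd0 hd2 a2 a1 a4 a3 (by rw [← hz]; exact b1)
      (by rw [← hz]; exact b2) c1 c2 c3
  have hV0 : 0 < V := lt_of_lt_of_le hm0 l7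
  have hgK : g ≤ K := by
    have h1 : (g : ℝ) * V ≤ K * V := by
      rw [rK]
      have h2 := (abs_le.mp l5).1
      norm_num at h2 ⊢
      linarith
    have h2 := le_of_mul_le_mul_right h1 hV0
    exact_mod_cast h2
  let x : Prm := ⟨D, p, K, Kh, J, M, g, e, n0, h, L, q, t, w1, w2, v, m, 1 / 10 ^ 30, δ⟩
  have hxθ : x.θ = 1 / 10 ^ 31 := by
    show 1 - ((M : ℝ) + 2 * J - 1) * m = 1 / 10 ^ 31
    rw [rM, rJ, hm]
    norm_num
  have hxZ : x.Z0 = Z := hZ.symm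
  have hbn : x.b0 = K + J := rfl
  have hWn : x.W = L * q := rfl
  have nKW : K + J - Kh + 2 * (L * q) + 2 ≤ K := by
    rw [hK, hJ, hKh, hL, hq]; norm_num
  refine ⟨x, ?_, rfl, rfl, rfl, le_of_eq hB.symm, le_refl _⟩
  exact {
    n1 := by show (0 : ℝ) < 1 / 10 ^ 30; norm_num
    V1 := by
      show 10 ^ 12 * (L : ℝ) * h * (n0 * m) ≤ 1
      rw [rL, rh, rn0, hm]; norm_num
    V2 := by
      show 10 ^ 6 * (1 / 10 ^ 30 : ℝ) ≤ n0 * m
      rw [rn0, hm]; norm_num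
    h1 := by show 1000 ≤ h; rw [hh]
    L1 := by show L = 8 * h ^ 2 + 4 * h; rw [hL, hh]; norm_num
    D1 := hD1
    J1 := by show 1 ≤ J; rw [hJ]; norm_num
    q1 := by show 1 ≤ q; rw [hq]; norm_num
    t1 := by show 1 ≤ t; rw [ht]; norm_num
    n2 := by show 1 ≤ n0; rw [hn0]; norm_num
    w0 := hw20
    w12 := hw12
    w1v := hw1v
    pK := by
      show p ≤ (K + J - Kh) * w2 + (K - 2 * (L * q) - 2 - (K + J - Kh)) * w1
      have n1 : 2 * (L * q) ≤ K := by omega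
      have n2 : 2 ≤ K - 2 * (L * q) := by omega
      have n3 : K + J - Kh ≤ K - 2 * (L * q) - 2 := by omega
      have h1 : (p : ℝ) ≤ (((K + J - Kh) * w2 + (K - 2 * (L * q) - 2 - (K + J - Kh)) * w1 : ℕ) : ℝ) := by
        push_cast [Nat.cast_sub hKKh, Nat.cast_sub n3, Nat.cast_sub n2, Nat.cast_sub n1]
        rw [rK, rJ, rKh, rL, rq, hPD, hw1D, hw2D]
        have h2 : P * D ≤ ((5 * 10 ^ 109 + 6 * 10 ^ 78 + 102 * 10 ^ 77 - 25 * 10 ^ 108) * W2 +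
            (25 * 10 ^ 108 - 102 * 10 ^ 77 - 2 * (8004000 * (8 * 10 ^ 66)) - 2) * W1) * D := by
          apply mul_le_mul_of_nonneg_right _ hD0.le
          refine le_trans ?_ l10
          have : (0 : ℝ) ≤ 1 / 10 * (1 / 10 ^ 31) := by norm_num
          linarith
        refine h2.trans (le_of_eq ?_)
        ring
      exact_mod_cast h1
    KW := by show K + J - Kh + 2 * (L * q) + 2 ≤ K; exact nKW
    KhK := by show Kh ≤ K; rw [hKh, hK]; norm_num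
    KJ := by show 100 * J + 100 ≤ K; rw [hJ, hK]; norm_num
    Kh1 := by show 5 * K ≤ 11 * Kh; rw [hK, hKh]; norm_num
    Kh2 := by show 9 * Kh ≤ 5 * K; rw [hK, hKh]; norm_num
    g0 := g0
    g1 := hgK
    g2 := g2
    g3 := g3
    e2 := by show J * (v - w2) ≤ e * v; rw [mul_comm e v]; exact e1
    e3 := by
      show ((e : ℝ) + 1) * m ≤ 1 / 10 ^ 30 * x.θ
      rw [hxθ]
      have h1 : (e : ℝ) * m ≤ e * V := mul_le_mul_of_nonneg_left l7 (Nat.cast_nonneg _)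
      have h2 : ((e : ℝ) + 1) * m = e * m + m := by ring
      linarith
    N1 := by show 2 * x.Z0 + M * v ≤ D + 2 * p; rw [hxZ]; omega
    N2 := by show D + 2 * p < 2 * x.Z0 + M * v + M; rw [hxZ]; omega
    m0 := hm0
    t0 := by rw [hxθ]; norm_num
    th := by rw [hxθ]; show (1 : ℝ) / 10 ^ 31 ≤ 1 / 10 ^ 30; norm_num
    tL := by
      show 10 * (L : ℝ) * x.θ ≤ 1
      rw [hxθ, rL]; norm_num
    c1 := by
      show |(p : ℝ) / D - 1 / 2| ≤ 1 / 10 ^ 30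
      rw [← hP]
      exact hP1.trans (by norm_num)
    s1 := by
      show |(w1 : ℝ) / D - m - 1 / 4 * x.θ * m| ≤ 1 / 10 ^ 30 * x.θ * m
      rw [hxθ, ← hW1]; exact l1
    s2 := by
      show |(w2 : ℝ) / D - m - 3 / 20 * x.θ * m| ≤ 1 / 10 ^ 30 * x.θ * m
      rw [hxθ, ← hW2]; exact l2
    s3 := by
      show |(v : ℝ) / D - m - 3 / 5 * x.θ * m| ≤ 1 / 10 ^ 30 * x.θ * m
      rw [hxθ, ← hV]; exact l3
    k1 := by
      show |(K : ℝ) * m - 1 / 2| ≤ 1 / 10 ^ 30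
      rw [rK, hm, abs_le]; constructor <;> norm_num
    kh := by
      show |(Kh : ℝ) * m - 1 / 4| ≤ 1 / 10 ^ 30
      rw [rKh, hm, abs_le]; constructor <;> norm_num
    m1 := by
      show |(M : ℝ) * m - 1| ≤ 1 / 10 ^ 30
      rw [rM, hm, abs_le]; constructor <;> norm_num
    j1 := by
      show (J : ℝ) * m ≤ 1 / 10 ^ 30
      rw [rJ, hm]; norm_num
    k2 := by
      show |((Kh : ℝ) * w1 + (K - Kh) * w2 - p) / D - 1 / 5 * x.θ| ≤ 1 / 10 ^ 30 * x.θ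
      have h1 : ((Kh : ℝ) * w1 + (K - Kh) * w2 - p) / D = 25 * 10 ^ 108 * W1 +
          (5 * 10 ^ 109 + 6 * 10 ^ 78 - 25 * 10 ^ 108) * W2 - P := by
        rw [rKh, rK, hw1D, hw2D, hPD]
        field_simp
      rw [hxθ, h1]; exact l4
    j2 := by
      show |((K : ℝ) - g) * (v / D) - 2 / 5 * x.θ| ≤ 1 / 10 ^ 30 * x.θ
      have h1 : ((K : ℝ) - g) * (v / D) = (5 * 10 ^ 109 + 6 * 10 ^ 78) * V - g * V := by
        rw [← hV, rK]; ring
      rw [hxθ, h1]; exact l5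
    q2 := by
      show x.θ / (200 * L) ≤ h * q * ((w2 : ℝ) / D)
      rw [hxθ, ← hW2, rL, rh, rq]; exact l11
    q3 := by
      show h * q * ((v : ℝ) / D) ≤ x.θ / (120 * L)
      rw [hxθ, ← hV, rL, rh, rq]; exact l12
    u1 := by
      show 10 ^ 20 * (L : ℝ) ^ 4 * m ≤ 1 / 10 ^ 30 * x.θ
      rw [hxθ, rL, hm]; norm_num
    D2 := by
      show 10 ^ 9 * (((2 * K + 2 * J + M : ℕ) : ℝ) + 1) ≤ 1 / 10 ^ 30 * x.θ * m * D
      rw [hxθ, ← hB, rB, hm]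
      exact hDb
    t2 := by
      show 10 ^ 20 * (L : ℝ) ^ 3 * ((2 * K + 2 * J + M : ℕ) : ℝ) ≤ 1 / 10 ^ 30 * t
      rw [← hB, rB, rL, rt]; norm_num
    d0 := hδ0
    d1 := by
      show 10 ^ 9 * (L : ℝ) * (2 * h * t + 2) ^ 2 * (((2 * K + 2 * J + M : ℕ) : ℝ) + 2) *
        (2 * h + 2) * δ ≤ x.θ
      rw [hxθ, ← hB, hδ1]
    xi := by
      show x.θ * D + 2 * h * t * δ * D + 2 ≤ J * w2
      rw [hxθ, rJ, hw2D]
      have h1 : 2 * (h : ℝ) * t * δ ≤ 1 / 10 ^ 31 / 10 ^ 9 := by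
        have : (2 * (h : ℝ) * t + 2) * δ = 2 * (h : ℝ) * t * δ + 2 * δ := by ring
        linarith
      have h2 : 2 * (h : ℝ) * t * δ * D ≤ 1 / 10 ^ 31 / 10 ^ 9 * D :=
        mul_le_mul_of_nonneg_right h1 hD0.le
      have h3 : 101 / 100 * (1 / 10 ^ 31) * D ≤ 102 * 10 ^ 77 * W2 * D :=
        mul_le_mul_of_nonneg_right l13 hD0.le
      have e1 : 101 / 100 * (1 / 10 ^ 31) * (D : ℝ) = 1 / 10 ^ 31 * D + 1 / 10 ^ 33 * D := by ring
      have e2 : 1 / 10 ^ 31 / 10 ^ 9 * (D : ℝ) = 1 / 10 ^ 6 * (1 / 10 ^ 34 * D) := by ring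
      have e3 : 1 / 10 ^ 33 * (D : ℝ) = 10 * (1 / 10 ^ 34 * D) := by ring
      have e4 : 102 * 10 ^ 77 * W2 * (D : ℝ) = 102 * 10 ^ 77 * (W2 * D) := by ring
      rw [e1, e3, e4] at h3
      rw [e2] at h2
      linarith }

end Pool.Agent.H39.HX
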