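import Mathlib

set_option autoImplicit false

namespace Pool.Agent.H39.HX.P0

/-- ceiling division -/
theorem ceil_div (x K : ℕ) (hK : 1 ≤ K) :
    x ≤ K * ((x + K - 1) / K) ∧ K * ((x + K - 1) / K) + 1 ≤ x + K := by
  have h1 := Nat.div_mul_le_self (x + K - 1) K
  have h2 := Nat.lt_mul_div_succ (x + K - 1) (by omega : 0 < K)
  have h3 : K * ((x + K - 1) / K + 1) = K * ((x + K - 1) / K) + K := by ring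
  rw [h3] at h2
  rw [mul_comm] at h1
  constructor <;> omega

theorem nat_g (p v : ℕ) (hv : 1 ≤ v) (hp : 2 ≤ p) :
    1 ≤ (p - 1 + v - 1) / v ∧ p ≤ (p - 1 + v - 1) / v * v + 1 ∧
      ((p - 1 + v - 1) / v - 1) * v + 1 < p ∧ (p - 1 + v - 1) / v * v + 2 ≤ p + v := by
  obtain ⟨h1, h2⟩ := ceil_div (p - 1) v hv
  generalize (p - 1 + v - 1) / v = g at *
  have h3 : v * g = g * v := mul_comm _ _
  rw [h3] at h1 h2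
  have hg : 1 ≤ g := by
    rcases Nat.eq_zero_or_pos g with h | h
    · rw [h] at h1
      omega
    · exact h
  have h4 : (g - 1) * v = g * v - v := by
    rw [Nat.sub_mul, one_mul]
  have h5 : v ≤ g * v := Nat.le_mul_of_pos_left v hg
  refine ⟨hg, by omega, ?_, by omega⟩
  rw [h4]
  omega

/-- the linear inequalities; `T = 10^110`, `θ = 1/10^31`, `η = 1/10^30`, `μ = (1 - θ) / T` -/
theorem lin (P d W1 W2 V G E m : ℝ) (hm : m = (1 - 1 / 10 ^ 31) / 10 ^ 110)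
    (hP : |P - 1 / 2| ≤ 1 / 10 ^ 70) (hd0 : 0 < d)
    (hd : d ≤ 1 / 10 ^ 200)
    (hW1 : m * (1 + 1 / 10 ^ 31 / 4) - d ≤ W1) (hW1' : W1 ≤ m * (1 + 1 / 10 ^ 31 / 4))
    (hW2 : m * (1 + 3 / 20 * (1 / 10 ^ 31)) - d ≤ W2)
    (hW2' : W2 ≤ m * (1 + 3 / 20 * (1 / 10 ^ 31)))
    (hV1 : (10 ^ 110 - 204 * 10 ^ 77 + 1) * V ≤ 1 + 2 * P - 2 * (25 * 10 ^ 108 * W1 +
      (5 * 10 ^ 109 + 6 * 10 ^ 78 + 102 * 10 ^ 77 - 25 * 10 ^ 108) * W2))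
    (hV2 : 1 + 2 * P - 2 * (25 * 10 ^ 108 * W1 +
      (5 * 10 ^ 109 + 6 * 10 ^ 78 + 102 * 10 ^ 77 - 25 * 10 ^ 108) * W2) ≤
      (10 ^ 110 - 204 * 10 ^ 77 + 1) * V + (10 ^ 110 - 204 * 10 ^ 77 + 1) * d)
    (hG : P - d ≤ G) (hG' : G ≤ P - d + V) (hE : E ≤ 102 * 10 ^ 77 * (V - W2) + V) :
    |W1 - m - 1 / 4 * (1 / 10 ^ 31) * m| ≤ 1 / 10 ^ 30 * (1 / 10 ^ 31) * m ∧
    |W2 - m - 3 / 20 * (1 / 10 ^ 31) * m| ≤ 1 / 10 ^ 30 * (1 / 10 ^ 31) * m ∧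
    |V - m - 3 / 5 * (1 / 10 ^ 31) * m| ≤ 1 / 10 ^ 30 * (1 / 10 ^ 31) * m ∧
    |25 * 10 ^ 108 * W1 + (5 * 10 ^ 109 + 6 * 10 ^ 78 - 25 * 10 ^ 108) * W2 - P -
      1 / 5 * (1 / 10 ^ 31)| ≤ 1 / 10 ^ 30 * (1 / 10 ^ 31) ∧
    |(5 * 10 ^ 109 + 6 * 10 ^ 78) * V - G - 2 / 5 * (1 / 10 ^ 31)| ≤ 1 / 10 ^ 30 * (1 / 10 ^ 31) ∧
    E + V ≤ 1 / 10 ^ 30 * (1 / 10 ^ 31) ∧ m ≤ V ∧ W1 + 10 * d ≤ V ∧ W2 + 10 * d ≤ W1 ∧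
    P + 1 / 10 * (1 / 10 ^ 31) ≤ (5 * 10 ^ 109 + 6 * 10 ^ 78 + 102 * 10 ^ 77 - 25 * 10 ^ 108) * W2 +
      (25 * 10 ^ 108 - 102 * 10 ^ 77 - 2 * (8004000 * (8 * 10 ^ 66)) - 2) * W1 ∧
    1 / (10 ^ 31) / (200 * 8004000) ≤ 1000 * (8 * 10 ^ 66) * W2 ∧
    1000 * (8 * 10 ^ 66) * V ≤ 1 / (10 ^ 31) / (120 * 8004000) ∧
    101 / 100 * (1 / 10 ^ 31) ≤ 102 * 10 ^ 77 * W2 ∧ 10 * d ≤ W2 ∧
    (5 * 10 ^ 109 + 6 * 10 ^ 78 + 102 * 10 ^ 77) * W1 ≤ 11 / 20 := by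
  have hP1 := (abs_le.mp hP).1
  have hP2 := (abs_le.mp hP).2
  subst hm
  norm_num at *
  refine ⟨?_, ?_, ?_, ?_, ?_, ?_, ?_, ?_, ?_, ?_, ?_, ?_, ?_, ?_, ?_⟩
  · rw [abs_le]; constructor <;> linarith
  · rw [abs_le]; constructor <;> linarith
  · rw [abs_le]; constructor <;> linarith
  · rw [abs_le]; constructor <;> linarith
  · rw [abs_le]; constructor <;> linarith
  all_goals linarith

end Pool.Agent.H39.HX.P0
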